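import Pool.Agent.V11247.EqT.C2

/-!
# The cost of equality testing is not half of the 2-edge-connected spanning cost

For the Petersen graph the cost per bit is `5`, while a 2-edge-connected spanning subgraph has at
least `11` edges.
-/

set_option autoImplicit false

namespace Pool.Agent.Results.MP_01a55a_lc.PetersenGap

open Filter Topology Pool.Agent.V11247.EqT

/-- **Result.** The Petersen graph `P` is connected, `f(P) = 5` and `c₂(P) ≥ 11`, so that
`f(P) < c₂(P) / 2`. -/
theorem result : petersen.Connected ∧
    Tendsto (fun n : ℕ => (eqCost petersen (Fin n → Bool) : ℝ) / n) atTop (𝓝 5) ∧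
    11 ≤ c2 petersen :=
  ⟨petersen_connected, petersen_rate, eleven_le_c2⟩

end Pool.Agent.Results.MP_01a55a_lc.PetersenGap
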